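import Mathlib

namespace Pool.Agent.Results.MP_9405a7_co.No

open MvPolynomial

/-- A finite oriented multigraph (loops and multiple edges allowed) with vertices `0,…,n` and
edges `0,…,m-1`; edge `e` runs from `src e` to `tgt e`. -/
structure G where
  n : ℕ
  m : ℕ
  src : Fin m → Fin (n + 1)
  tgt : Fin m → Fin (n + 1)

/-- Entry of the vertex-edge incidence matrix at vertex number `v` and edge `e`. -/
def inc (g : G) (v : ℕ) (e : Fin g.m) : ℤ :=
  (if (g.src e : ℕ) = v then 1 else 0) - (if (g.tgt e : ℕ) = v then 1 else 0)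

/-- Entry `(i,j)` of `M_G`, for `i, j < m + n`: indices `< m` are the edges, index `m + v` is the
vertex `v < n` (the row of the vertex `n` is the deleted one). -/
noncomputable def Mn (g : G) (i j : ℕ) : MvPolynomial (Fin g.m) ℤ :=
  if hi : i < g.m then
    (if j < g.m then (if i = j then X ⟨i, hi⟩ else 0) else C (inc g (j - g.m) ⟨i, hi⟩))
  else (if hj : j < g.m then - C (inc g (i - g.m) ⟨j, hj⟩) else 0)

/-- The indices of `M_G` left after removing the edges in `I`, in increasing order. -/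
def keep (g : G) (I : Finset (Fin g.m)) : List ℕ :=
  (List.range (g.m + g.n)).filter fun i => ∀ e ∈ I, (e : ℕ) ≠ i

/-- The Dodgson polynomial `Ψ^{I,J}_K` (for `|I| = |J|`): determinant of `M_G` with rows `I` and
columns `J` removed, then `α_e = 0` for `e ∈ K`. -/
noncomputable def dod (g : G) (I J K : Finset (Fin g.m)) : MvPolynomial (Fin g.m) ℤ :=
  aeval (fun e => if e ∈ K then (0 : MvPolynomial (Fin g.m) ℤ) else X e)
    (Matrix.det (Matrix.of fun a b : Fin (g.m + g.n - I.card) =>
      Mn g ((keep g I).getD a 0) ((keep g J).getD b 0)))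

/-- `S` splits: one of the Dodgsons of `D_S` is the zero polynomial. -/
def Splits (g : G) (S : Finset (Fin g.m)) : Prop :=
  ∃ I J K : Finset (Fin g.m), I ∪ J ∪ K = S ∧
    ((I.card = 2 ∧ J.card = 2 ∧ I ∩ J = ∅ ∧ K.card = 1) ∨
      (I.card = 3 ∧ J.card = 3 ∧ (I ∩ J).card = 1 ∧ K = ∅)) ∧ dod g I J K = 0

/-- The five-invariant of the edges `e 0, …, e 4`. -/
noncomputable def five (g : G) (e : Fin 5 → Fin g.m) : MvPolynomial (Fin g.m) ℤ :=
  dod g {e 0, e 1} {e 2, e 3} {e 4} * dod g {e 0, e 2, e 4} {e 1, e 3, e 4} ∅ -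
    dod g {e 0, e 2} {e 1, e 3} {e 4} * dod g {e 0, e 1, e 4} {e 2, e 3, e 4} ∅

/-- Every irreducible factor has degree at most one in every variable. -/
def LinFact {m : ℕ} (p : MvPolynomial (Fin m) ℤ) : Prop :=
  ∀ q : MvPolynomial (Fin m) ℤ, Irreducible q → q ∣ p → ∀ i, degreeOf i q ≤ 1

/-- `K_{3,3}` with sides `{0,1,2}`, `{3,4,5}`; edges `03,04,05,13,14,15,23,24,25` in this order. -/
def K33 : G where
  n := 5
  m := 9
  src e := ⟨e / 3, by omega⟩
  tgt e := ⟨3 + e % 3, by omega⟩

/-- The edges `04, 05, 14, 15, 23`. -/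
def e5 : Fin 5 → Fin K33.m := (![1, 2, 4, 5, 6] : Fin 5 → Fin 9)

section aux

def evalM {R : Type*} [CommRing R] (x : ℕ → R) (p : ℤ × List ℕ) : R := (p.1 : R) * (p.2.map x).prod

def evalL {R : Type*} [CommRing R] (x : ℕ → R) (L : List (ℤ × List ℕ)) : R :=
  (L.map (evalM x)).sum

def forceN {α : Type} : ℕ → (ℕ → α) → α
  | 0, k => k 0
  | n + 1, k => k (n + 1)

def forceL {α : Type} : List ℕ → (List ℕ → α) → α
  | [], k => k []
  | a :: l, k => forceN a fun a' => forceL l fun l' => k (a' :: l')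

theorem forceN_eq {α : Type} (n : ℕ) (k : ℕ → α) : forceN n k = k n := by cases n <;> rfl

theorem forceL_eq {α : Type} (l : List ℕ) : ∀ k : List ℕ → α, forceL l k = k l := by
  induction l with
  | nil => intro k; rfl
  | cons a l ih => intro k; rw [forceL, forceN_eq, ih]

def DE (ent : ℕ → ℕ → ℤ × List ℕ) : List ℕ → List ℕ → List (ℤ × List ℕ)
  | [], _ => [(1, [])]
  | r :: rs, cs => (List.range cs.length).flatMap fun j =>
      if (ent r (cs.getD j 0)).1 = 0 then [] else
        (forceL (cs.eraseIdx j) fun l => DE ent rs l).map fun q =>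
          ((-1) ^ j * (ent r (cs.getD j 0)).1 * q.1, (ent r (cs.getD j 0)).2 ++ q.2)

theorem evalL_flatMap {R : Type*} [CommRing R] (x : ℕ → R) (f : ℕ → List (ℤ × List ℕ)) (n : ℕ) :
    evalL x ((List.range n).flatMap f) = ∑ j ∈ Finset.range n, evalL x (f j) := by
  induction n with
  | zero => simp [evalL]
  | succ n ih =>
    rw [List.range_succ, List.flatMap_append, Finset.sum_range_succ, ← ih]
    simp [evalL]

theorem evalL_scale {R : Type*} [CommRing R] (x : ℕ → R) (c : ℤ) (p : ℤ × List ℕ)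
    (L : List (ℤ × List ℕ)) :
    evalL x (L.map fun q => (c * p.1 * q.1, p.2 ++ q.2)) = (c : R) * evalM x p * evalL x L := by
  induction L with
  | nil => simp [evalL]
  | cons q L ih =>
    simp only [evalL, List.map_cons, List.sum_cons] at ih ⊢
    rw [ih]
    simp only [evalM, List.map_append, List.prod_append]
    push_cast
    ring

theorem det_DE {R : Type*} [CommRing R] (x : ℕ → R) (ent : ℕ → ℕ → ℤ × List ℕ) :
    ∀ (n : ℕ) (rs cs : List ℕ), rs.length = n → cs.length = n →
      Matrix.det (Matrix.of fun a b : Fin n => evalM x (ent (rs.getD a 0) (cs.getD b 0))) =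
        evalL x (DE ent rs cs) := by
  intro n
  induction n with
  | zero =>
    intro rs cs h1 _
    rw [List.length_eq_zero_iff] at h1
    subst h1
    simp [DE, evalL, evalM]
  | succ n ih =>
    intro rs cs h1 h2
    obtain ⟨r, rs, rfl⟩ := List.exists_cons_of_length_eq_add_one h1
    have h1' : rs.length = n := by simpa using h1
    rw [Matrix.det_succ_row_zero, DE, evalL_flatMap, h2, Finset.sum_range]
    refine Finset.sum_congr rfl fun j _ => ?_
    have hl : (cs.eraseIdx j).length = n := by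
      rw [List.length_eraseIdx_of_lt (by rw [h2]; exact j.2), h2]; rfl
    have hs : (Matrix.of fun a b : Fin (n + 1) =>
        evalM x (ent ((r :: rs).getD a 0) (cs.getD b 0))).submatrix Fin.succ j.succAbove =
        Matrix.of fun a b : Fin n => evalM x (ent (rs.getD a 0) ((cs.eraseIdx j).getD b 0)) := by
      ext a b
      have : cs.getD (j.succAbove b) 0 = (cs.eraseIdx j).getD b 0 := by
        rw [List.getD_eq_getElem?_getD, List.getD_eq_getElem?_getD, List.getElem?_eraseIdx]
        unfold Fin.succAbove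
        by_cases h : b.castSucc < j
        · have h' : (b : ℕ) < j := h
          rw [if_pos h, if_pos h']; rfl
        · have h' : ¬ (b : ℕ) < j := h
          rw [if_neg h, if_neg h']; rfl
      simp only [Matrix.submatrix_apply, Matrix.of_apply, this, Fin.val_succ, List.getD_cons_succ]
    rw [hs, ih rs _ h1' hl]
    split_ifs with h0
    · have : evalM x (ent r (cs.getD j 0)) = 0 := by simp only [evalM, h0]; simp
      simp only [Matrix.of_apply, Fin.val_zero, List.getD_cons_zero, this]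
      simp [evalL]
    · rw [forceL_eq, evalL_scale]
      simp only [Matrix.of_apply, Fin.val_zero, List.getD_cons_zero]
      push_cast
      ring

theorem evalL_map {R S : Type*} [CommRing R] [CommRing S] (φ : R →+* S) (x : ℕ → R)
    (L : List (ℤ × List ℕ)) : φ (evalL x L) = evalL (fun v => φ (x v)) L := by
  induction L with
  | nil => simp [evalL]
  | cons q L ih =>
    simp only [evalL, List.map_cons, List.sum_cons, map_add] at ih ⊢
    rw [ih]
    simp [evalM, map_list_prod, Function.comp_def]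

def ent (g : G) (K : Finset (Fin g.m)) (i j : ℕ) : ℤ × List ℕ :=
  if hi : i < g.m then
    (if j < g.m then (if i = j then (if ⟨i, hi⟩ ∈ K then (0, []) else (1, [i])) else (0, []))
      else (inc g (j - g.m) ⟨i, hi⟩, []))
  else (if hj : j < g.m then (- inc g (i - g.m) ⟨j, hj⟩, []) else (0, []))

noncomputable def xv (g : G) (v : ℕ) : MvPolynomial (Fin g.m) ℤ :=
  if h : v < g.m then X ⟨v, h⟩ else 0

theorem ent_eq (g : G) (K : Finset (Fin g.m)) (i j : ℕ) :
    aeval (fun e => if e ∈ K then (0 : MvPolynomial (Fin g.m) ℤ) else X e) (Mn g i j) =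
      evalM (xv g) (ent g K i j) := by
  unfold Mn ent
  split_ifs <;> simp_all [evalM, xv]

theorem dod_eq (g : G) (I J K : Finset (Fin g.m))
    (h1 : (keep g I).length = g.m + g.n - I.card) (h2 : (keep g J).length = g.m + g.n - I.card) :
    dod g I J K = evalL (xv g) (DE (ent g K) (keep g I) (keep g J)) := by
  rw [dod, ← det_DE (xv g) (ent g K) _ _ _ h1 h2, AlgHom.map_det]
  congr 1
  ext1 a b
  simp only [AlgHom.mapMatrix_apply, Matrix.map_apply, Matrix.of_apply, ent_eq]

def DF (I J K : Finset (Fin K33.m)) : List (ℤ × List ℕ) :=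
  forceL (keep K33 I) fun a => forceL (keep K33 J) fun b => DE (ent K33 K) a b

theorem DF_eq (I J K : Finset (Fin K33.m)) :
    DF I J K = DE (ent K33 K) (keep K33 I) (keep K33 J) := by
  simp only [DF, forceL_eq]

def S5 : Finset (Fin K33.m) := ({1, 2, 4, 5, 6} : Finset (Fin 9))


def Good (I J K : Finset (Fin K33.m)) : Prop :=
  (keep K33 I).length = K33.m + K33.n - I.card ∧ (keep K33 J).length = K33.m + K33.n - I.card ∧
    evalL (fun v => if v < 9 then (3 : ℤ) ^ v else 0) (DF I J K) ≠ 0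

instance (I J K : Finset (Fin K33.m)) : Decidable (Good I J K) := by
  unfold Good; infer_instance

theorem chk2 : ∀ I ∈ S5.powersetCard 2, ∀ J ∈ S5.powersetCard 2, I ∩ J = ∅ →
    ∀ K ∈ S5.powersetCard 1, I ∪ J ∪ K = S5 → Good I J K := by
  decide +kernel

theorem chk3 : ∀ I ∈ S5.powersetCard 3, ∀ J ∈ S5.powersetCard 3, (I ∩ J).card = 1 →
    Good I J ∅ := by
  decide +kernel

theorem good_ne {I J K : Finset (Fin K33.m)} (h : Good I J K) : dod K33 I J K ≠ 0 := by
  intro h0
  apply h.2.2
  rw [dod_eq K33 I J K h.1 h.2.1, ← DF_eq] at h0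
  have := congrArg (MvPolynomial.eval fun e : Fin K33.m => (3 : ℤ) ^ (e : ℕ)) h0
  rw [evalL_map, map_zero] at this
  refine Eq.trans ?_ this
  congr 1
  funext v
  unfold xv
  by_cases hv : v < 9
  · rw [if_pos hv, dif_pos (show v < K33.m from hv), eval_X]
  · rw [if_neg hv, dif_neg (show ¬ v < K33.m from hv), map_zero]

theorem img : Finset.univ.image e5 = S5 := by decide +kernel

theorem not_splits : ¬ Splits K33 (Finset.univ.image e5) := by
  rw [img]
  rintro ⟨I, J, K, hU, hc, h0⟩
  have hI : I ⊆ S5 := hU ▸ (Finset.subset_union_left.trans Finset.subset_union_left)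
  have hJ : J ⊆ S5 := hU ▸ (Finset.subset_union_right.trans Finset.subset_union_left)
  have hK : K ⊆ S5 := hU ▸ Finset.subset_union_right
  rcases hc with ⟨a, b, c, d⟩ | ⟨a, b, c, d⟩
  · exact good_ne (chk2 I (Finset.mem_powersetCard.2 ⟨hI, a⟩) J
      (Finset.mem_powersetCard.2 ⟨hJ, b⟩) c K (Finset.mem_powersetCard.2 ⟨hK, d⟩) hU) h0
  · subst d
    exact good_ne (chk3 I (Finset.mem_powersetCard.2 ⟨hI, a⟩) J
      (Finset.mem_powersetCard.2 ⟨hJ, b⟩) c) h0

theorem dod_val (I J K : Finset (Fin K33.m)) (L : List (ℤ × List ℕ))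
    (h : (keep K33 I).length = K33.m + K33.n - I.card ∧
      (keep K33 J).length = K33.m + K33.n - I.card ∧ DF I J K = L) :
    dod K33 I J K = evalL (xv K33) L := by
  rw [dod_eq K33 I J K h.1 h.2.1, ← DF_eq, h.2.2]

theorem five_eq : five K33 e5 = (xv K33 0 + xv K33 3) * xv K33 7 * xv K33 8 -
    xv K33 0 * xv K33 3 * (xv K33 7 + xv K33 8) := by
  rw [five, dod_val _ _ _ [(1, [7, 8])] (by decide +kernel),
    dod_val _ _ _ [(1, [0]), (1, [3])] (by decide +kernel),
    dod_val _ _ _ [(1, [0, 3]), (-1, [0, 8]), (1, [0, 8]), (-1, [3, 8]), (1, [3, 8])]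
      (by decide +kernel),
    dod_val _ _ _ [(1, [7]), (1, [8])] (by decide +kernel)]
  simp only [evalL, evalM, List.map_cons, List.map_nil, List.sum_cons, List.sum_nil,
    List.prod_cons, List.prod_nil]
  push_cast
  ring

noncomputable def P9 : MvPolynomial (Fin 9) ℤ :=
  (X 0 + X 3) * X 7 * X 8 - X 0 * X 3 * (X 7 + X 8)

theorem five_eq' : five K33 e5 = P9 := five_eq

theorem P9_ne : P9 ≠ 0 := by
  intro h
  have := congrArg (MvPolynomial.eval fun e : Fin 9 => (3 : ℤ) ^ (e : ℕ)) h
  simp [P9] at this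

theorem deg3 (a b c i : Fin 9) (hab : a ≠ b) (hac : a ≠ c) (hbc : b ≠ c) :
    degreeOf i (X a * X b * X c : MvPolynomial (Fin 9) ℤ) ≤ 1 := by
  refine (degreeOf_mul_le _ _ _).trans ?_
  refine (Nat.add_le_add_right (degreeOf_mul_le _ _ _) _).trans ?_
  simp only [degreeOf_X]
  split_ifs <;> simp_all

theorem P9_deg (i : Fin 9) : degreeOf i P9 ≤ 1 := by
  have : P9 = (X 0 * X 7 * X 8 + X 3 * X 7 * X 8) - (X 0 * X 3 * X 7 + X 0 * X 3 * X 8) := by
    unfold P9; ring
  rw [this]
  refine (degreeOf_sub_le _ _ _).trans (max_le ?_ ?_) <;>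
    refine (degreeOf_add_le _ _ _).trans (max_le ?_ ?_) <;>
    exact deg3 _ _ _ _ (by decide) (by decide) (by decide)

theorem P9_dvd (q : MvPolynomial (Fin 9) ℤ) (h : q ∣ P9) (i : Fin 9) : degreeOf i q ≤ 1 := by
  obtain ⟨r, hr⟩ := h
  have h0 := P9_ne
  have h1 := P9_deg i
  rw [hr] at h0 h1
  rw [degreeOf_mul_eq (left_ne_zero_of_mul h0) (right_ne_zero_of_mul h0)] at h1
  omega

end aux

theorem result :
    (Function.Injective e5 ∧ ¬ Splits K33 (Finset.univ.image e5) ∧
      five K33 e5 = ((X 0 + X 3) * X 7 * X 8 - X 0 * X 3 * (X 7 + X 8) : MvPolynomial (Fin 9) ℤ) ∧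
      five K33 e5 ≠ 0 ∧ ∀ q, q ∣ five K33 e5 → ∀ i, degreeOf i q ≤ 1) ∧
    ¬ ∀ (g : G) (e : Fin 5 → Fin g.m), Function.Injective e →
      (LinFact (five g e) ↔ Splits g (Finset.univ.image e)) := by
  have hi : Function.Injective e5 := by decide
  refine ⟨⟨hi, not_splits, five_eq', five_eq' ▸ P9_ne, fun q h i => P9_dvd q (five_eq' ▸ h) i⟩,
    fun h => not_splits ((h K33 e5 hi).1 fun q _ hq i => P9_dvd q (five_eq' ▸ hq) i)⟩

end Pool.Agent.Results.MP_9405a7_co.No
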